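import Pool.Agent.P8H48.LV.Stm

/-!
# Project LV (helper48), package POL: polynomial rings
-/

set_option autoImplicit false

open CategoryTheory AlgebraicGeometry MvPolynomial Pool.Agent.Y116.UV Pool.Agent.Z125.UN
open Pool.Agent.P8H48.LV

namespace Pool.Agent.P8H88.LV

/-- an isomorphism of algebras of finite type -/
theorem iso_algL {R : Type} [CommRing R] {P : ℕ → Sch R → Prop} (hP : Lv P) (n : ℕ) {A B : Type}
    [CommRing A] [CommRing B] [Algebra R A] [Algebra R B] [Algebra.FiniteType R A] (e : A ≃ₐ[R] B)
    (h : P n (aff R A)) : P n (aff R B) :=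
  hP.iso n (ft_aff False) ⟨(affIso e).symm⟩ h

/-- polynomial rings in finitely many variables -/
theorem polF {R : Type} [CommRing R] {P : ℕ → Sch R → Prop} (hP : Lv P) (n : ℕ) (A : Type)
    [CommRing A] [Algebra R A] [Algebra.FiniteType R A] (m : ℕ) :
    P n (aff R A) ↔ P n (aff R (MvPolynomial (Fin m) A)) := by
  have h1 : IsOpenImmersion (𝟙 (aff R A) : aff R A ⟶ aff R A).left :=
    inferInstanceAs (IsOpenImmersion (𝟙 (aff R A).left))
  have h2 : Set.range (𝟙 (aff R A) : aff R A ⟶ aff R A).left =
      {x : PrimeSpectrum A | ∃ l, f1 A m l ∉ x.asIdeal} := by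
    have h1 : Set.range (𝟙 (aff R A) : aff R A ⟶ aff R A).left = Set.univ := Set.range_id
    have h2 : {x : PrimeSpectrum A | ∃ l, f1 A m l ∉ x.asIdeal} = Set.univ := by
      rw [Set.eq_univ_iff_forall]
      intro x
      exact ⟨0, fun h => x.isPrime.ne_top ((Ideal.eq_top_iff_one _).mpr h)⟩
    exact h1.trans h2.symm
  have hb := hP.bundle n A (m + 1) (f1 A m) (aff R A) (𝟙 _) h1 h2
  have f1' : Algebra.FiniteType R (MvPolynomial (Fin m) A) :=
    Algebra.FiniteType.trans (S := A) inferInstance inferInstance
  have f2 : Algebra.FiniteType R (Jou (f1 A m)) :=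
    Algebra.FiniteType.trans (S := A) inferInstance inferInstance
  exact hb.trans ⟨fun h => iso_algL hP n ((jouOne A m).restrictScalars R) h,
    fun h => iso_algL hP n ((jouOne A m).restrictScalars R).symm h⟩

/-- the package POL -/
theorem pol : S_POL := by
  intro R _ P hP n A _ _ _ σ _
  have := Fintype.ofFinite σ
  have f1' : Algebra.FiniteType R (MvPolynomial (Fin (Fintype.card σ)) A) :=
    Algebra.FiniteType.trans (S := A) inferInstance inferInstance
  have f2 : Algebra.FiniteType R (MvPolynomial σ A) :=
    Algebra.FiniteType.trans (S := A) inferInstance inferInstance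
  exact (polF hP n A (Fintype.card σ)).trans
    ⟨fun h => iso_algL hP n ((renameEquiv A (Fintype.equivFin σ).symm).restrictScalars R) h,
      fun h => iso_algL hP n ((renameEquiv A (Fintype.equivFin σ)).restrictScalars R) h⟩

end Pool.Agent.P8H88.LV
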